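import Pool.Agent.W229.V.A1

set_option autoImplicit false

namespace Pool.Agent.W229.V

open Module
open scoped Pointwise

theorem taskA1 (h1 : TaskA1a) (h2 : TaskA1b) : TaskA1 := by
  intro K _ _
  classical
  set n := finrank ℚ K with hn
  have hnpos : 0 < n := finrank_pos
  set D : ℝ := |(NumberField.discr K : ℝ)| with hD
  have hD1 : 1 ≤ D := by
    have h0 : NumberField.discr K ≠ 0 := NumberField.discr_ne_zero K
    have : (1 : ℤ) ≤ |NumberField.discr K| := Int.one_le_abs h0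
    have h : ((1 : ℤ) : ℝ) ≤ ((|NumberField.discr K| : ℤ) : ℝ) := Int.cast_le.mpr this
    rw [Int.cast_abs] at h
    simpa using h
  have hD0 : 0 < D := lt_of_lt_of_le one_pos hD1
  set T : ℝ := 13 * D ^ (1 / (n : ℝ)) with hT
  have hDn : 1 ≤ D ^ (1 / (n : ℝ)) := Real.one_le_rpow hD1 (by positivity)
  have hT1 : 1 ≤ T := by rw [hT]; linarith
  have hT0 : 0 < T := lt_of_lt_of_le one_pos hT1
  have hTn : T ^ n = 13 ^ n * D := by
    rw [hT, mul_pow, ← Real.rpow_natCast (D ^ (1 / (n : ℝ))) n, ← Real.rpow_mul hD0.le,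
      one_div_mul_cancel (by positivity), Real.rpow_one]
  set A : Set (NumberField.RingOfIntegers K) := {a | ∀ σ : K →+* ℂ, ‖σ a‖ < T} with hA
  set s : Set K := (fun a : NumberField.RingOfIntegers K => (a : K)) '' A with hs
  set W : Submodule ℚ K := Submodule.span ℚ s with hW
  have e1 := h1 K T hT0
  have e2 := h2 K T hT1 W (fun a ha => Submodule.subset_span ⟨a, ha, rfl⟩)
  have hdim : finrank ℚ K < 2 * finrank ℚ W := by
    by_contra hcon
    rw [not_lt, ← hn] at hcon
    have e3 : T ^ n ≤ 2 ^ n * Real.sqrt D * (3 * T) ^ finrank ℚ W :=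
      e1.trans (mul_le_mul_of_nonneg_left e2 (by positivity))
    have e4 : T ^ n * T ^ n ≤ 4 ^ n * D * (3 * T) ^ n := by
      calc T ^ n * T ^ n ≤ (2 ^ n * Real.sqrt D * (3 * T) ^ finrank ℚ W) *
            (2 ^ n * Real.sqrt D * (3 * T) ^ finrank ℚ W) := by gcongr
        _ = (2 ^ n * 2 ^ n) * (Real.sqrt D * Real.sqrt D) * (3 * T) ^ (2 * finrank ℚ W) := by ring
        _ = 4 ^ n * D * (3 * T) ^ (2 * finrank ℚ W) := by
            rw [Real.mul_self_sqrt hD0.le, ← mul_pow]; norm_num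
        _ ≤ 4 ^ n * D * (3 * T) ^ n := by
            gcongr
            linarith
    have e5 : T ^ n ≤ 12 ^ n * D := by
      have : T ^ n * T ^ n ≤ (12 ^ n * D) * T ^ n := by
        refine e4.trans (le_of_eq ?_)
        rw [mul_pow, show (12 : ℝ) = 4 * 3 by norm_num, mul_pow 4 3]; ring
      exact le_of_mul_le_mul_right this (by positivity)
    rw [hTn] at e5
    have e6 : (12 : ℝ) ^ n < 13 ^ n := pow_lt_pow_left₀ (by norm_num) (by norm_num) hnpos.ne'
    nlinarith
  have htop := taskA1c K W hdim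
  rw [hW, Submodule.span_mul_span] at htop
  obtain ⟨b, hb1, hb2, hb3⟩ := exists_linearIndependent ℚ (s * s)
  rw [htop] at hb2
  let bas : Basis b ℚ K := Basis.mk hb3 (by rw [Subtype.range_coe, hb2])
  have : Fintype b := FiniteDimensional.fintypeBasisIndex bas
  have hcard : Fintype.card b = n := by rw [hn, finrank_eq_card_basis bas]
  let e : Fin n ≃ b := (Fintype.equivFinOfCardEq hcard).symm
  have hprod : ∀ i : Fin n, ∃ ω : NumberField.RingOfIntegers K, (ω : K) = (e i : K) ∧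
      ∀ σ : K →+* ℂ, ‖σ ω‖ ≤ T ^ 2 := by
    intro i
    obtain ⟨x, ⟨a, ha, rfl⟩, y, ⟨a', ha', rfl⟩, hxy⟩ := Set.mem_mul.mp (hb1 (e i).2)
    refine ⟨a * a', by rw [← hxy]; simp, fun σ => ?_⟩
    have h3 := ha σ
    have h4 := ha' σ
    have h5 : ((a * a' : NumberField.RingOfIntegers K) : K) = (a : K) * (a' : K) := by simp
    rw [h5, map_mul, norm_mul, pow_two]
    exact mul_le_mul h3.le h4.le (norm_nonneg _) hT0.le
  choose ω hω1 hω2 using hprod
  refine ⟨ω, ?_, fun i σ => ?_⟩
  · have : (fun i => (ω i : K)) = (fun x : b => (x : K)) ∘ e := by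
      ext i; simp [hω1]
    rw [this]
    exact hb3.comp e e.injective
  · refine (hω2 i σ).trans (le_of_eq ?_)
    rw [hT, mul_pow, ← Real.rpow_natCast (D ^ (1 / (n : ℝ))) 2, ← Real.rpow_mul hD0.le]
    norm_num
    congr 1
    ring

end Pool.Agent.W229.V
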