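import Pool.Agent.W229.V.Stmts

set_option autoImplicit false

namespace Pool.Agent.W229.V

open Module

/-- A1c -/
theorem taskA1c : TaskA1c := by
  intro K _ _ W hW
  by_contra hne
  -- a nonzero functional vanishing on W * W
  obtain ⟨φ, hφ, hker⟩ := Submodule.exists_le_ker_of_lt_top (W * W) (lt_top_iff_ne_top.mpr hne)
  -- the map W → Dual (K / W)
  let B : K →ₗ[ℚ] K →ₗ[ℚ] ℚ := (LinearMap.mul ℚ K).compr₂ φ
  have hB : ∀ a b, B a b = φ (a * b) := fun a b => rfl
  have hvan : ∀ a ∈ W, ∀ b ∈ W, B a b = 0 := fun a ha b hb => by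
    rw [hB]; exact hker (Submodule.mul_mem_mul ha hb)
  let G : W →ₗ[ℚ] Dual ℚ K := B.comp W.subtype
  have hG : Function.Injective G := by
    rw [← LinearMap.ker_eq_bot, LinearMap.ker_eq_bot']
    intro a ha
    by_contra ha0
    apply hφ
    ext x
    have h1 : B a ((a : K)⁻¹ * x) = 0 := by
      have := congrArg (fun f : Dual ℚ K => f ((a : K)⁻¹ * x)) ha
      simpa [G] using this
    rw [hB, mul_inv_cancel_left₀ (by simpa using ha0)] at h1
    simpa using h1
  have hrange : LinearMap.range G ≤ W.dualAnnihilator := by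
    rintro _ ⟨a, rfl⟩
    rw [Submodule.mem_dualAnnihilator]
    intro b hb
    exact hvan a a.2 b hb
  have h1 : finrank ℚ W ≤ finrank ℚ W.dualAnnihilator := by
    rw [← LinearMap.finrank_range_of_inj hG]
    exact Submodule.finrank_mono hrange
  have h2 := Subspace.finrank_add_finrank_dualAnnihilator_eq W
  omega

end Pool.Agent.W229.V
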