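import Pool.Agent.W229.V.Stmts

set_option autoImplicit false

namespace Pool.Agent.W229.V

open Module Height Filter
open scoped LinearAlgebra.Projectivization

noncomputable section

variable {k : Type} [Field k] [NumberField k] {N : ℕ}

theorem deg_pos (P : ℙ (AlgebraicClosure k) (Fin (N + 1) → AlgebraicClosure k)) : 0 < deg P :=
  finrank_pos

theorem coord_ne_zero (P : ℙ (AlgebraicClosure k) (Fin (N + 1) → AlgebraicClosure k)) :
    coord P ≠ 0 := by
  intro h
  have := congrArg (fun f => ((f (Function.ne_iff.mp P.rep_nonzero).choose : ptField P) :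
    AlgebraicClosure k)) h
  have h2 := (Function.ne_iff.mp P.rep_nonzero).choose_spec
  simp only [coord, Pi.zero_apply, ZeroMemClass.coe_zero] at this
  rw [div_self (by simpa using h2)] at this
  exact one_ne_zero this

/-- the inclusion of the `K`-points into all points -/
def incl (K : IntermediateField k (AlgebraicClosure k)) (Q : ℙ K (Fin (N + 1) → K)) :
    ℙ (AlgebraicClosure k) (Fin (N + 1) → AlgebraicClosure k) :=
  Projectivization.mk _ (fun i => (Q.rep i : AlgebraicClosure k)) (by
    intro h
    apply Q.rep_nonzero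
    ext i
    simpa using congrFun h i)

theorem incl_coord (P : ℙ (AlgebraicClosure k) (Fin (N + 1) → AlgebraicClosure k)) :
    incl (ptField P) (Projectivization.mk _ (coord P) (coord_ne_zero P)) = P := by
  set Q := Projectivization.mk (ptField P) (coord P) (coord_ne_zero P) with hQ
  obtain ⟨a, ha⟩ := Projectivization.exists_smul_eq_mk_rep (ptField P) (coord P) (coord_ne_zero P)
  rw [← hQ] at ha
  conv_rhs => rw [← P.mk_rep]
  unfold incl
  rw [Projectivization.mk_eq_mk_iff']
  set j := (Function.ne_iff.mp P.rep_nonzero).choose with hj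
  refine ⟨((a : ptField P) : AlgebraicClosure k) / P.rep j, ?_⟩
  ext i
  rw [← ha]
  simp only [Pi.smul_apply, smul_eq_mul, Units.smul_def, coord]
  push_cast
  ring

theorem mulHeight_rep (P : ℙ (AlgebraicClosure k) (Fin (N + 1) → AlgebraicClosure k)) :
    mulHeight (Projectivization.mk (ptField P) (coord P) (coord_ne_zero P)).rep =
      Real.exp (deg P * ht P) := by
  obtain ⟨a, ha⟩ := Projectivization.exists_smul_eq_mk_rep (ptField P) (coord P) (coord_ne_zero P)
  rw [← ha, Units.smul_def, mulHeight_smul_eq_mulHeight _ a.ne_zero]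
  have h : (deg P : ℝ) ≠ 0 := by exact_mod_cast (deg_pos P).ne'
  rw [ht, mul_div_cancel₀ _ h, logHeight_eq_log_mulHeight, Real.exp_log (mulHeight_pos _)]

theorem ht_nonneg (P : ℙ (AlgebraicClosure k) (Fin (N + 1) → AlgebraicClosure k)) : 0 ≤ ht P :=
  div_nonneg (logHeight_nonneg _) (Nat.cast_nonneg _)

theorem finrank_ptField (P : ℙ (AlgebraicClosure k) (Fin (N + 1) → AlgebraicClosure k)) :
    finrank ℚ (ptField P) = finrank ℚ k * deg P :=
  (finrank_mul_finrank ℚ k (ptField P)).symm

end

end Pool.Agent.W229.V
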