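import Pool.Agent.W229.V.Basic

set_option autoImplicit false

namespace Pool.Agent.W229.V

open Module Height Filter
open scoped LinearAlgebra.Projectivization

noncomputable section

/-- points with a given residue field -/
theorem fibre_bound (hB : TaskB) (n N : ℕ) : ∃ M : ℝ, 0 ≤ M ∧
    ∀ (k : Type) [Field k] [NumberField k] (K : IntermediateField k (AlgebraicClosure k)),
    finrank ℚ K = n → ∀ d : ℕ, ∀ B : ℝ, 1 ≤ B →
    (Set.ncard {P : ℙ (AlgebraicClosure k) (Fin (N + 1) → AlgebraicClosure k) |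
      ptField P = K ∧ deg P ≤ d ∧ ht P ≤ Real.log B} : ℝ) ≤
      M * B ^ (4 * ((N : ℝ) + 1) * d) := by
  obtain ⟨C, hC⟩ := hB n N
  refine ⟨max C 0, le_max_right _ _, fun k _ _ K hK d B hB1 => ?_⟩
  have hB0 : 0 < B := lt_of_lt_of_le one_pos hB1
  set A : Set (ℙ (AlgebraicClosure k) (Fin (N + 1) → AlgebraicClosure k)) :=
    {P | ptField P = K ∧ deg P ≤ d ∧ ht P ≤ Real.log B} with hA
  rcases A.eq_empty_or_nonempty with hemp | ⟨P₀, hP₀⟩
  · rw [hemp, Set.ncard_empty]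
    simp only [Nat.cast_zero]
    positivity
  have hnf : NumberField K := hP₀.1 ▸ nf P₀
  have hZ : 1 ≤ B ^ (d : ℝ) := Real.one_le_rpow hB1 (Nat.cast_nonneg _)
  obtain ⟨hfin, hcard⟩ := hC K hK (B ^ (d : ℝ)) hZ
  have hsub : A ⊆ incl K '' {Q : ℙ K (Fin (N + 1) → K) | mulHeight Q.rep ≤ B ^ (d : ℝ)} := by
    rintro P ⟨hPK, hPd, hPB⟩
    subst hPK
    refine ⟨_, ?_, incl_coord P⟩
    rw [Set.mem_ofPred_eq]
    have h1 := mulHeight_rep P
    have h2 : Real.exp (deg P * ht P) ≤ B ^ (d : ℝ) := by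
      rw [Real.rpow_def_of_pos hB0, mul_comm (Real.log B)]
      apply Real.exp_le_exp.mpr
      have : (deg P : ℝ) ≤ d := by exact_mod_cast hPd
      exact mul_le_mul this hPB (ht_nonneg P) (Nat.cast_nonneg _)
    convert h1.le.trans h2
  have h1 : A.ncard ≤ Set.ncard {Q : ℙ K (Fin (N + 1) → K) | mulHeight Q.rep ≤ B ^ (d : ℝ)} :=
    (Set.ncard_le_ncard hsub (hfin.image _)).trans (Set.ncard_image_le hfin)
  calc (A.ncard : ℝ) ≤ (Set.ncard {Q : ℙ K (Fin (N + 1) → K) |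
        mulHeight Q.rep ≤ B ^ (d : ℝ)} : ℝ) := by exact_mod_cast h1
    _ ≤ C * (B ^ (d : ℝ)) ^ (4 * ((N : ℝ) + 1)) := hcard
    _ ≤ max C 0 * (B ^ (d : ℝ)) ^ (4 * ((N : ℝ) + 1)) := by
        gcongr
        exact le_max_left _ _
    _ = max C 0 * B ^ (4 * ((N : ℝ) + 1) * d) := by
        rw [← Real.rpow_mul hB0.le]; ring_nf

end

end Pool.Agent.W229.V
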