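import Pool.Agent.W229.V.MainOf
import Pool.Agent.W229.V.A1Basis
import Pool.Agent.W669.VA1a
import Pool.Agent.W669.VA1b
import Pool.Agent.W368.V.A2
import Pool.Agent.W358.VojA3
import Pool.Agent.W249.VA4
import Pool.Agent.W29.VojB
import Pool.Agent.W313.Voj.C1
import Pool.Agent.W313.Voj.C3
import Pool.Agent.W345.VOJ.C2
import Pool.Agent.W508.VojN

set_option autoImplicit false

namespace Pool.Agent.W229.V

theorem main : MainU :=
  main_of
    (W249.VA4.taskA4 (taskA1 W669.VA1a.taskA1a W669.VA1b.taskA1b) W368.V.taskA2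
      W358.VojA3.taskA3)
    W29.VojB.taskB
    (W345.VOJ.taskC2 W313.Voj.taskC1)
    W313.Voj.taskC3
    W508.VojN.taskN

end Pool.Agent.W229.V
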