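import Pool.Agent.W229.V.Upper

set_option autoImplicit false

namespace Pool.Agent.W229.V

open Module Height Filter
open scoped LinearAlgebra.Projectivization

noncomputable section

/-- many points of degree at most `d` -/
theorem lower_bound (hC2 : TaskC2) (hC3 : TaskC3) (hN : TaskN) (k : Type) [Field k] [NumberField k]
    (N : ℕ) (S : Set (MvPolynomial (Fin (N + 1)) k)) (hS : ∀ F ∈ S, ∃ e, F.IsHomogeneous e)
    (hinf : (algSet S).Infinite) :
    ∃ (a : ℝ) (e : ℕ), 0 < a ∧ ∀ d : ℕ, e ≤ d → ∀ᶠ B : ℝ in atTop,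
      B ^ (a * (d : ℝ) ^ 2) ≤
        Set.ncard {P | P ∈ algSet S ∧ deg P ≤ d ∧ ht P ≤ Real.log B} := by
  classical
  obtain ⟨e, C, D, f, he, hD, hinj, hf⟩ := hC2 k N S hS hinf
  have he0 : (0 : ℝ) < e := by exact_mod_cast he
  refine ⟨1 / (8 * D * (e : ℝ) ^ 2), e, by positivity, fun d hd => ?_⟩
  set r : ℕ := d / e with hr
  have hr1 : 1 ≤ r := (Nat.one_le_div_iff he).mpr hd
  have hrd : (d : ℝ) / e ≤ r + 1 := by
    rw [div_le_iff₀ he0]
    have := Nat.lt_div_mul_add (a := d) (b := e) he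
    have h2 : d ≤ (d / e + 1) * e := by nlinarith
    exact_mod_cast h2
  have hrd2 : (d : ℝ) / (2 * e) ≤ r := by
    have h1 : (1 : ℝ) ≤ r := by exact_mod_cast hr1
    have h2 : (d : ℝ) / (2 * e) = (d / e) / 2 := by field_simp
    rw [h2]; linarith
  -- the parameter
  have hμ : ∀ᶠ B : ℝ in atTop, 1 ≤ B ∧ B ^ (1 / (2 * D)) + 1 ≤
      (B * Real.exp (-C)) ^ (1 / D) / 8 := by
    have h1 : Tendsto (fun B : ℝ => B ^ (1 / (2 * D))) atTop atTop :=
      tendsto_rpow_atTop (by positivity)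
    have h2 : ∀ᶠ y : ℝ in atTop, y + 1 ≤ y * y * (Real.exp (-C) ^ (1 / D) / 8) := by
      have hpos : 0 < Real.exp (-C) ^ (1 / D) / 8 := by positivity
      filter_upwards [eventually_ge_atTop (1 : ℝ),
        eventually_ge_atTop (2 / (Real.exp (-C) ^ (1 / D) / 8))] with y hy1 hy2
      rw [div_le_iff₀ hpos] at hy2
      nlinarith
    filter_upwards [h1.eventually h2, eventually_ge_atTop (1 : ℝ)] with B hB hB1
    refine ⟨hB1, hB.trans (le_of_eq ?_)⟩
    have hB0 : 0 < B := lt_of_lt_of_le one_pos hB1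
    rw [Real.mul_rpow hB0.le (Real.exp_pos _).le, ← Real.rpow_add hB0]
    have : 1 / (2 * D) + 1 / (2 * D) = 1 / D := by field_simp; norm_num
    rw [this]; ring
  filter_upwards [hμ] with B hB
  obtain ⟨hB1, hB2⟩ := hB
  have hB0 : 0 < B := lt_of_lt_of_le one_pos hB1
  set x : ℝ := (B * Real.exp (-C)) ^ (1 / D) / 8 with hx
  set μ : ℕ := ⌊x⌋₊ with hμd
  have hy1 : 1 ≤ B ^ (1 / (2 * D)) := Real.one_le_rpow hB1 (by positivity)
  have hx0 : 0 ≤ x := by linarith
  have hμle : (μ : ℝ) ≤ x := Nat.floor_le hx0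
  have hμge : B ^ (1 / (2 * D)) ≤ μ := by
    have := Nat.lt_floor_add_one x
    linarith
  have hμ1 : 1 ≤ μ := by
    have : (1 : ℝ) ≤ μ := hy1.trans hμge
    exact_mod_cast this
  obtain ⟨s, hs1, hs2⟩ := hC3 (AlgebraicClosure k) r μ hr1 hμ1
  have hfin : {P | P ∈ algSet S ∧ deg P ≤ d ∧ ht P ≤ Real.log B}.Finite :=
    (hN k N d (Real.log B)).subset fun P hP => hP.2
  have hsub : (↑(s.image f) : Set _) ⊆ {P | P ∈ algSet S ∧ deg P ≤ d ∧ ht P ≤ Real.log B} := by
    intro P hP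
    rw [Finset.mem_coe, Finset.mem_image] at hP
    obtain ⟨ξ, hξ, rfl⟩ := hP
    obtain ⟨hint, hnd, hσ⟩ := hs2 ξ hξ
    obtain ⟨h1, h2, h3⟩ := hf ξ hint
    refine ⟨h1, h2.trans ?_, ?_⟩
    · rw [hnd]; exact Nat.mul_div_le d e
    · have h4 : (1 : ℝ) ≤ 8 * μ := by
        have : (1 : ℝ) ≤ μ := by exact_mod_cast hμ1
        linarith
      refine (h3 (8 * μ) h4 hσ).trans ?_
      have h5 : Real.log (8 * μ) ≤ (1 / D) * (Real.log B - C) := by
        have h6 : (8 * μ : ℝ) ≤ (B * Real.exp (-C)) ^ (1 / D) := by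
          rw [hx, le_div_iff₀ (by norm_num)] at hμle
          linarith
        calc Real.log (8 * μ) ≤ Real.log ((B * Real.exp (-C)) ^ (1 / D)) :=
              Real.log_le_log (by linarith) h6
          _ = (1 / D) * (Real.log B - C) := by
              rw [Real.log_rpow (by positivity), Real.log_mul hB0.ne' (Real.exp_pos _).ne',
                Real.log_exp]; ring
      have h7 : D * Real.log (8 * μ) ≤ Real.log B - C := by
        calc D * Real.log (8 * μ) ≤ D * ((1 / D) * (Real.log B - C)) := by gcongr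
          _ = _ := by field_simp
      linarith
  have hcard : s.card ≤ Set.ncard {P | P ∈ algSet S ∧ deg P ≤ d ∧ ht P ≤ Real.log B} := by
    rw [← Finset.card_image_of_injOn (s := s) (f := f)
      (fun a ha b hb hab => hinj (hs2 a ha).1 (hs2 b hb).1 hab), ← Set.ncard_coe_finset]
    exact Set.ncard_le_ncard hsub hfin
  have hexp : 1 / (8 * D * (e : ℝ) ^ 2) * (d : ℝ) ^ 2 ≤
      1 / (2 * D) * ((r * (r + 1) / 2 : ℕ) : ℝ) := by
    have h8 : ((r * (r + 1) / 2 : ℕ) : ℝ) = (r : ℝ) * (r + 1) / 2 := by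
      rw [Nat.cast_div (Nat.even_mul_succ_self r).two_dvd (by norm_num)]
      push_cast; ring
    rw [h8]
    have h9 : (d : ℝ) / (2 * e) * (d / e) ≤ r * (r + 1) :=
      mul_le_mul hrd2 hrd (by positivity) (by positivity)
    calc 1 / (8 * D * (e : ℝ) ^ 2) * (d : ℝ) ^ 2
        = 1 / (4 * D) * ((d : ℝ) / (2 * e) * (d / e)) := by field_simp; ring
      _ ≤ 1 / (4 * D) * (r * (r + 1)) := by gcongr
      _ = _ := by field_simp; norm_num
  calc B ^ (1 / (8 * D * (e : ℝ) ^ 2) * (d : ℝ) ^ 2)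
      ≤ B ^ (1 / (2 * D) * ((r * (r + 1) / 2 : ℕ) : ℝ)) :=
        Real.rpow_le_rpow_of_exponent_le hB1 hexp
    _ = (B ^ (1 / (2 * D))) ^ (r * (r + 1) / 2) := by
        rw [Real.rpow_mul hB0.le, Real.rpow_natCast]
    _ ≤ (μ : ℝ) ^ (r * (r + 1) / 2) := by gcongr
    _ ≤ (s.card : ℝ) := by exact_mod_cast hs1
    _ ≤ _ := by exact_mod_cast hcard

end

end Pool.Agent.W229.V
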