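import Pool.Agent.W229.V.Lower

set_option autoImplicit false

namespace Pool.Agent.W229.V

open Module Height Filter
open scoped LinearAlgebra.Projectivization

noncomputable section

theorem growth (a b A δ : ℝ) (ha : 0 < a) (hδ : 0 < δ) :
    ∀ᶠ d : ℕ in atTop, b * (d : ℝ) + A * (d : ℝ) ^ (2 - δ) < a * (d : ℝ) ^ 2 := by
  have h1 : Tendsto (fun d : ℕ => b * (d : ℝ)⁻¹ + A * (d : ℝ) ^ (-δ)) atTop (nhds (b * 0 + A * 0)) :=
    ((tendsto_inv_atTop_nhds_zero_nat (𝕜 := ℝ)).const_mul b).add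
      (((tendsto_rpow_neg_atTop hδ).comp tendsto_natCast_atTop_atTop).const_mul A)
  rw [mul_zero, mul_zero, add_zero] at h1
  filter_upwards [h1.eventually (gt_mem_nhds ha), eventually_ge_atTop 1] with d hd hd1
  have hd0 : (0 : ℝ) < d := by exact_mod_cast hd1
  have h2 : (b * (d : ℝ)⁻¹ + A * (d : ℝ) ^ (-δ)) * (d : ℝ) ^ 2 < a * (d : ℝ) ^ 2 :=
    mul_lt_mul_of_pos_right hd (by positivity)
  have h3 : (d : ℝ) ^ (2 - δ) = (d : ℝ) ^ (-δ) * (d : ℝ) ^ 2 := by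
    rw [← Real.rpow_natCast (d : ℝ) 2, ← Real.rpow_add hd0]
    congr 1; push_cast; ring
  calc b * (d : ℝ) + A * (d : ℝ) ^ (2 - δ)
      = (b * (d : ℝ)⁻¹ + A * (d : ℝ) ^ (-δ)) * (d : ℝ) ^ 2 := by
        rw [h3]; field_simp
    _ < _ := h2

/-- the final theorem, with `c` independent of `δ` -/
def MainU : Prop :=
  ∀ (k : Type) [Field k] [NumberField k] (N : ℕ) (S : Set (MvPolynomial (Fin (N + 1)) k)),
    (∀ F ∈ S, ∃ e, F.IsHomogeneous e) → (algSet S).Infinite →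
    ∃ c : ℝ, 0 < c ∧ ∀ δ : ℝ, 0 < δ → ∃ d₀ : ℕ, ∀ d : ℕ, d₀ ≤ d → ∀ C : ℝ,
      ∀ᶠ B : ℝ in Filter.atTop,
        {P | P ∈ algSet S ∧ deg P ≤ d ∧ ht P ≤ Real.log B}.Finite ∧
        (Set.ncard {P | P ∈ algSet S ∧ deg P ≤ d ∧ ht P ≤ Real.log B ∧
          logDisc P ≤ (d : ℝ) ^ (1 - δ) * ht P + C} : ℝ) ≤
        B ^ (-(c * (d : ℝ) ^ 2)) *
          Set.ncard {P | P ∈ algSet S ∧ deg P ≤ d ∧ ht P ≤ Real.log B}

theorem main_of (hA4 : TaskA4) (hB : TaskB) (hC2 : TaskC2) (hC3 : TaskC3) (hN : TaskN) : MainU := by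
  intro k _ _ N S hS hinf
  obtain ⟨a, e, ha, hlow⟩ := lower_bound hC2 hC3 hN k N S hS hinf
  refine ⟨a / 2, by positivity, fun δ hδ => ?_⟩
  -- r with 1 / r ≤ δ / 2
  obtain ⟨r₀, hr₀⟩ := exists_nat_gt (2 / δ)
  set r : ℕ := r₀ + 1 with hr
  have hrδ : 1 / (r : ℝ) ≤ δ / 2 := by
    have h1 : 2 / δ < r := hr₀.trans (by rw [hr]; push_cast; linarith)
    rw [div_lt_iff₀ hδ] at h1
    have hr0 : (0 : ℝ) < r := by rw [hr]; positivity
    rw [div_le_iff₀ hr0]; linarith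
  obtain ⟨c, hc, hup⟩ := exc_bound hA4 hB hN r (by omega)
  set A : ℝ := c * (finrank ℚ k : ℝ) ^ (1 / (r : ℝ)) with hA
  have hg := growth (a / 2) (4 * ((N : ℝ) + 1)) A (δ / 2) (by positivity) (by positivity)
  obtain ⟨d₁, hd₁⟩ := eventually_atTop.mp hg
  refine ⟨max (max e d₁) 1, fun d hd C => ?_⟩
  have hde : e ≤ d := (le_max_left _ _).trans ((le_max_left _ _).trans hd)
  have hdd : d₁ ≤ d := (le_max_right _ _).trans ((le_max_left _ _).trans hd)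
  have hd1 : 1 ≤ d := (le_max_right _ _).trans hd
  have hd0 : (0 : ℝ) < d := by exact_mod_cast hd1
  have hd1' : (1 : ℝ) ≤ d := by exact_mod_cast hd1
  obtain ⟨M, hM, hM2⟩ := hup k N d ((d : ℝ) ^ (1 - δ)) C (by positivity)
  set u : ℝ := 4 * ((N : ℝ) + 1) * d +
    c * ((finrank ℚ k * d : ℕ) : ℝ) ^ (1 / (r : ℝ)) * (d * (d : ℝ) ^ (1 - δ)) with hu
  have hu2 : u < a / 2 * (d : ℝ) ^ 2 := by
    refine lt_of_le_of_lt ?_ (hd₁ d hdd)
    rw [hu]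
    refine add_le_add le_rfl ?_
    have h1 : ((finrank ℚ k * d : ℕ) : ℝ) ^ (1 / (r : ℝ)) =
        (finrank ℚ k : ℝ) ^ (1 / (r : ℝ)) * (d : ℝ) ^ (1 / (r : ℝ)) := by
      push_cast
      rw [Real.mul_rpow (by positivity) hd0.le]
    rw [h1]
    calc c * ((finrank ℚ k : ℝ) ^ (1 / (r : ℝ)) * (d : ℝ) ^ (1 / (r : ℝ))) *
          (d * (d : ℝ) ^ (1 - δ))
        = A * ((d : ℝ) ^ (1 / (r : ℝ)) * ((d : ℝ) ^ (1 : ℝ) * (d : ℝ) ^ (1 - δ))) := by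
          rw [hA, Real.rpow_one]; ring
      _ = A * (d : ℝ) ^ (1 / (r : ℝ) + (1 + (1 - δ))) := by
          rw [← Real.rpow_add hd0, ← Real.rpow_add hd0]
      _ ≤ A * (d : ℝ) ^ (2 - δ / 2) := by
          have hA0 : 0 ≤ A := by positivity
          refine mul_le_mul_of_nonneg_left (Real.rpow_le_rpow_of_exponent_le hd1' ?_) hA0
          linarith
  have hM3 : ∀ᶠ B : ℝ in atTop, M ≤ B ^ (a / 2 * (d : ℝ) ^ 2 - u) :=
    (tendsto_rpow_atTop (by linarith)).eventually_ge_atTop M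
  filter_upwards [hlow d hde, hM3, eventually_ge_atTop (1 : ℝ)] with B hB2 hB3 hB1
  have hB0 : 0 < B := lt_of_lt_of_le one_pos hB1
  refine ⟨(hN k N d (Real.log B)).subset fun P hP => hP.2, ?_⟩
  have hfin : {P : ℙ (AlgebraicClosure k) (Fin (N + 1) → AlgebraicClosure k) |
      deg P ≤ d ∧ ht P ≤ Real.log B ∧ logDisc P ≤ (d : ℝ) ^ (1 - δ) * ht P + C}.Finite :=
    (hN k N d (Real.log B)).subset fun P hP => ⟨hP.1, hP.2.1⟩
  have h1 : (Set.ncard {P | P ∈ algSet S ∧ deg P ≤ d ∧ ht P ≤ Real.log B ∧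
          logDisc P ≤ (d : ℝ) ^ (1 - δ) * ht P + C} : ℝ) ≤ B ^ (a / 2 * (d : ℝ) ^ 2) := by
    calc (Set.ncard {P | P ∈ algSet S ∧ deg P ≤ d ∧ ht P ≤ Real.log B ∧
          logDisc P ≤ (d : ℝ) ^ (1 - δ) * ht P + C} : ℝ)
        ≤ Set.ncard {P : ℙ (AlgebraicClosure k) (Fin (N + 1) → AlgebraicClosure k) |
            deg P ≤ d ∧ ht P ≤ Real.log B ∧ logDisc P ≤ (d : ℝ) ^ (1 - δ) * ht P + C} := by
          refine Nat.cast_le.mpr (Set.ncard_le_ncard ?_ hfin)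
          intro P hP
          exact hP.2
      _ ≤ M * B ^ u := hM2 B hB1
      _ ≤ B ^ (a / 2 * (d : ℝ) ^ 2 - u) * B ^ u := by gcongr
      _ = B ^ (a / 2 * (d : ℝ) ^ 2) := by
          rw [← Real.rpow_add hB0]; congr 1; ring
  refine h1.trans ?_
  calc B ^ (a / 2 * (d : ℝ) ^ 2) = B ^ (-(a / 2 * (d : ℝ) ^ 2)) * B ^ (a * (d : ℝ) ^ 2) := by
        rw [← Real.rpow_add hB0]; congr 1; ring
    _ ≤ _ := by gcongr

end

end Pool.Agent.W229.V
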