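import Pool.Agent.W229.V.Fibre

set_option autoImplicit false

namespace Pool.Agent.W229.V

open Module Height Filter
open scoped LinearAlgebra.Projectivization

noncomputable section

theorem one_le_abs_discr (K : Type) [Field K] [NumberField K] :
    1 ≤ |(NumberField.discr K : ℝ)| := by
  have h0 : NumberField.discr K ≠ 0 := NumberField.discr_ne_zero K
  have : (1 : ℤ) ≤ |NumberField.discr K| := Int.one_le_abs h0
  have h : ((1 : ℤ) : ℝ) ≤ ((|NumberField.discr K| : ℤ) : ℝ) := Int.cast_le.mpr this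
  rw [Int.cast_abs] at h
  simpa using h

theorem exc_bound (hA4 : TaskA4) (hB : TaskB) (hN : TaskN) (r : ℕ) (hr : 1 ≤ r) :
    ∃ c : ℝ, 0 < c ∧ ∀ (k : Type) [Field k] [NumberField k] (N d : ℕ) (φ C : ℝ), 0 ≤ φ →
      ∃ M : ℝ, 0 ≤ M ∧ ∀ B : ℝ, 1 ≤ B →
        (Set.ncard {P : ℙ (AlgebraicClosure k) (Fin (N + 1) → AlgebraicClosure k) |
          deg P ≤ d ∧ ht P ≤ Real.log B ∧ logDisc P ≤ φ * ht P + C} : ℝ) ≤
        M * B ^ (4 * ((N : ℝ) + 1) * d +
          c * ((finrank ℚ k * d : ℕ) : ℝ) ^ (1 / (r : ℝ)) * (d * φ)) := by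
  classical
  obtain ⟨c, hc, hcn⟩ := hA4 r hr
  refine ⟨c, hc, fun k _ _ N d φ C hφ => ?_⟩
  choose C4 hC4 using hcn
  choose MB hMB0 hMB using fun n => fibre_bound hB n N
  set n1 : ℕ := finrank ℚ k * d with hn1
  set s0 : ℝ := Real.exp (d * (|C| + Real.log |(NumberField.discr k : ℝ)|)) with hs0
  have hlogk : 0 ≤ Real.log |(NumberField.discr k : ℝ)| := Real.log_nonneg (one_le_abs_discr k)
  have hs01 : 1 ≤ s0 := Real.one_le_exp (by positivity)
  set θ : ℝ := c * (n1 : ℝ) ^ (1 / (r : ℝ)) with hθ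
  have hθ0 : 0 ≤ θ := by positivity
  refine ⟨(∑ n ∈ Finset.range (n1 + 1), MB n) *
    ((∑ n ∈ Finset.range (n1 + 1), |C4 n|) * s0 ^ θ), ?_, fun B hB1 => ?_⟩
  · have : 0 ≤ ∑ n ∈ Finset.range (n1 + 1), MB n := Finset.sum_nonneg fun n _ => hMB0 n
    have h2 : 0 ≤ ∑ n ∈ Finset.range (n1 + 1), |C4 n| := Finset.sum_nonneg fun n _ => abs_nonneg _
    positivity
  have hB0 : 0 < B := lt_of_lt_of_le one_pos hB1
  have hlogB : 0 ≤ Real.log B := Real.log_nonneg hB1
  set S : ℝ := s0 * B ^ ((d : ℝ) * φ) with hS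
  have hS1 : 1 ≤ S := by
    have : 1 ≤ B ^ ((d : ℝ) * φ) := Real.one_le_rpow hB1 (by positivity)
    nlinarith
  set E : Set (ℙ (AlgebraicClosure k) (Fin (N + 1) → AlgebraicClosure k)) :=
    {P | deg P ≤ d ∧ ht P ≤ Real.log B ∧ logDisc P ≤ φ * ht P + C} with hE
  have hEfin : E.Finite := (hN k N d (Real.log B)).subset fun P hP => ⟨hP.1, hP.2.1⟩
  set F : ℕ → Set (IntermediateField k (AlgebraicClosure k)) := fun n =>
    {K | ∃ _ : NumberField K, finrank ℚ K = n ∧ |(NumberField.discr K : ℝ)| ≤ S} with hF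
  have hFfin : ∀ n, (F n).Finite := fun n => (hC4 n k S hS1).1
  have hFcard : ∀ n, ((F n).ncard : ℝ) ≤ C4 n * S ^ (c * (n : ℝ) ^ (1 / (r : ℝ))) :=
    fun n => (hC4 n k S hS1).2
  -- the fields that occur
  have himg : hEfin.toFinset.image ptField ⊆
      (Finset.range (n1 + 1)).biUnion fun n => (hFfin n).toFinset := by
    intro K hK
    rw [Finset.mem_image] at hK
    obtain ⟨P, hP, rfl⟩ := hK
    rw [Set.Finite.mem_toFinset] at hP
    obtain ⟨hPd, hPh, hPD⟩ := hP
    rw [Finset.mem_biUnion]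
    refine ⟨finrank ℚ (ptField P), ?_, ?_⟩
    · rw [Finset.mem_range, finrank_ptField, hn1, Nat.lt_succ_iff]
      exact Nat.mul_le_mul_left _ hPd
    · rw [Set.Finite.mem_toFinset]
      refine ⟨nf P, rfl, ?_⟩
      have hD1 := one_le_abs_discr (ptField P)
      have hdeg : (0 : ℝ) < deg P := by exact_mod_cast deg_pos P
      have hdegd : (deg P : ℝ) ≤ d := by exact_mod_cast hPd
      have h1 : Real.log |(NumberField.discr (ptField P) : ℝ)| ≤
          d * (|C| + Real.log |(NumberField.discr k : ℝ)|) + Real.log B * (d * φ) := by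
        have h2 : Real.log |(NumberField.discr (ptField P) : ℝ)| =
            deg P * (logDisc P + Real.log |(NumberField.discr k : ℝ)|) := by
          rw [logDisc, sub_add_cancel, mul_div_cancel₀ _ hdeg.ne']
        rw [h2]
        have h3 : logDisc P + Real.log |(NumberField.discr k : ℝ)| ≤
            |C| + Real.log |(NumberField.discr k : ℝ)| + φ * Real.log B := by
          have : φ * ht P ≤ φ * Real.log B := mul_le_mul_of_nonneg_left hPh hφ
          have := le_abs_self C
          linarith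
        calc (deg P : ℝ) * (logDisc P + Real.log |(NumberField.discr k : ℝ)|)
            ≤ deg P * (|C| + Real.log |(NumberField.discr k : ℝ)| + φ * Real.log B) := by gcongr
          _ ≤ d * (|C| + Real.log |(NumberField.discr k : ℝ)| + φ * Real.log B) := by gcongr
          _ = _ := by ring
      rw [← Real.exp_log (lt_of_lt_of_le one_pos hD1), hS, hs0,
        Real.rpow_def_of_pos hB0, ← Real.exp_add]
      exact Real.exp_le_exp.mpr h1
  have hfields : ((hEfin.toFinset.image ptField).card : ℝ) ≤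
      (∑ n ∈ Finset.range (n1 + 1), |C4 n|) * S ^ θ := by
    calc ((hEfin.toFinset.image ptField).card : ℝ)
        ≤ (((Finset.range (n1 + 1)).biUnion fun n => (hFfin n).toFinset).card : ℝ) := by
          exact_mod_cast Finset.card_le_card himg
      _ ≤ ((∑ n ∈ Finset.range (n1 + 1), ((hFfin n).toFinset).card : ℕ) : ℝ) := by
          exact_mod_cast Finset.card_biUnion_le
      _ = ∑ n ∈ Finset.range (n1 + 1), ((F n).ncard : ℝ) := by
          push_cast
          refine Finset.sum_congr rfl fun n _ => ?_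
          rw [Set.ncard_eq_toFinset_card _ (hFfin n)]
      _ ≤ ∑ n ∈ Finset.range (n1 + 1), |C4 n| * S ^ θ := by
          refine Finset.sum_le_sum fun n hn => (hFcard n).trans ?_
          have hn' : (n : ℝ) ≤ n1 := by
            exact_mod_cast Nat.lt_succ_iff.mp (Finset.mem_range.mp hn)
          have h5 : S ^ (c * (n : ℝ) ^ (1 / (r : ℝ))) ≤ S ^ θ := by
            apply Real.rpow_le_rpow_of_exponent_le hS1
            rw [hθ]
            gcongr
          exact mul_le_mul (le_abs_self _) h5 (by positivity) (abs_nonneg _)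
      _ = _ := by rw [Finset.sum_mul]
  have hfib : ∀ K ∈ hEfin.toFinset.image ptField,
      ((hEfin.toFinset.filter fun P => ptField P = K).card : ℝ) ≤
        (∑ n ∈ Finset.range (n1 + 1), MB n) * B ^ (4 * ((N : ℝ) + 1) * d) := by
    intro K hK
    have hK2 := himg hK
    rw [Finset.mem_biUnion] at hK2
    obtain ⟨n, hn, hKn⟩ := hK2
    rw [Set.Finite.mem_toFinset] at hKn
    obtain ⟨_, hKn, _⟩ := hKn
    have h6 := hMB n k K hKn d B hB1
    have h7 : ((hEfin.toFinset.filter fun P => ptField P = K).card : ℝ) ≤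
        (Set.ncard {P : ℙ (AlgebraicClosure k) (Fin (N + 1) → AlgebraicClosure k) |
          ptField P = K ∧ deg P ≤ d ∧ ht P ≤ Real.log B} : ℝ) := by
      rw [← Set.ncard_coe_finset]
      have hfin2 : {P : ℙ (AlgebraicClosure k) (Fin (N + 1) → AlgebraicClosure k) |
          ptField P = K ∧ deg P ≤ d ∧ ht P ≤ Real.log B}.Finite :=
        (hN k N d (Real.log B)).subset fun P hP => hP.2
      refine Nat.cast_le.mpr (Set.ncard_le_ncard (fun P hP => ?_) hfin2)
      rw [Finset.mem_coe, Finset.mem_filter, Set.Finite.mem_toFinset] at hP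
      exact ⟨hP.2, hP.1.1, hP.1.2.1⟩
    refine h7.trans (h6.trans ?_)
    gcongr
    exact Finset.single_le_sum (f := MB) (fun i _ => hMB0 i) hn
  have hmain : (E.ncard : ℝ) ≤
      ((∑ n ∈ Finset.range (n1 + 1), |C4 n|) * S ^ θ) *
      ((∑ n ∈ Finset.range (n1 + 1), MB n) * B ^ (4 * ((N : ℝ) + 1) * d)) := by
    rw [Set.ncard_eq_toFinset_card _ hEfin, Finset.card_eq_sum_card_image ptField]
    push_cast
    refine (Finset.sum_le_card_nsmul _ _ _ hfib).trans ?_
    rw [nsmul_eq_mul]
    refine mul_le_mul_of_nonneg_right hfields ?_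
    have : 0 ≤ ∑ n ∈ Finset.range (n1 + 1), MB n := Finset.sum_nonneg fun n _ => hMB0 n
    positivity
  refine hmain.trans (le_of_eq ?_)
  rw [hS, Real.mul_rpow (by positivity) (by positivity), ← Real.rpow_mul hB0.le,
    Real.rpow_add hB0, mul_comm (d * φ) θ]
  ring

end

end Pool.Agent.W229.V
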